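import Mathlib

set_option autoImplicit false

/-!
# A maximal chain of monotone functions modulo finite, and the ideal of bounded sets
-/

namespace Pool.Agent.Helper63_Linf

/-- Functions `ℕ → ℕ`. -/
abbrev Fn := ℕ → ℕ

/-- Eventual domination `f ≤* g`. -/
def EvLe (f g : Fn) : Prop := ∃ N, ∀ k, N ≤ k → f k ≤ g k

theorem EvLe.refl (f : Fn) : EvLe f f := ⟨0, fun _ _ => le_rfl⟩

theorem EvLe.trans {f g h : Fn} (h1 : EvLe f g) (h2 : EvLe g h) : EvLe f h := by
  obtain ⟨N, hN⟩ := h1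
  obtain ⟨M, hM⟩ := h2
  exact ⟨max N M, fun k hk => (hN k (le_trans (le_max_left _ _) hk)).trans
    (hM k (le_trans (le_max_right _ _) hk))⟩

theorem EvLe.of_le {f g : Fn} (h : ∀ k, f k ≤ g k) : EvLe f g := ⟨0, fun k _ => h k⟩

/-- The properties of a maximal chain of monotone functions for `≤*`. -/
structure IsGood (C : Set Fn) : Prop where
  mono : ∀ f ∈ C, Monotone f
  total : ∀ f ∈ C, ∀ g ∈ C, EvLe f g ∨ EvLe g f
  unbdd : ∀ h : Fn, ∃ f ∈ C, ¬ EvLe f h
  closed : ∀ f ∈ C, ∀ g : Fn, Monotone g → EvLe f g → EvLe g f → g ∈ C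

theorem exists_good : ∃ C : Set Fn, IsGood C := by
  classical
  let α := {f : Fn // Monotone f}
  let r : α → α → Prop := fun f g => EvLe f.1 g.1
  obtain ⟨hc, hmax⟩ := maxChain_spec (r := r)
  set M := maxChain r with hM
  have htot : ∀ f ∈ M, ∀ g ∈ M, r f g ∨ r g f := by
    intro f hf g hg
    by_cases h : f = g
    · subst h; exact Or.inl (EvLe.refl _)
    · exact hc hf hg h
  have hins : ∀ g : α, (∀ f ∈ M, r g f ∨ r f g) → g ∈ M := by
    intro g hg
    have h1 : IsChain r (insert g M) := hc.insert fun b hb _ => hg b hb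
    have h2 := hmax h1 (Set.subset_insert _ _)
    rw [h2]
    exact Set.mem_insert _ _
  refine ⟨Subtype.val '' M, ?_, ?_, ?_, ?_⟩
  · rintro _ ⟨f, -, rfl⟩
    exact f.2
  · rintro _ ⟨f, hf, rfl⟩ _ ⟨g, hg, rfl⟩
    exact htot f hf g hg
  · intro h
    by_contra hcon
    push Not at hcon
    -- the monotone majorant of `h`, plus one
    let H : Fn := fun k => (Finset.range (k + 1)).sup h + 1
    have hHm : Monotone H := by
      intro a b hab
      have : Finset.range (a + 1) ⊆ Finset.range (b + 1) := by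
        intro x hx
        rw [Finset.mem_range] at hx ⊢
        omega
      exact Nat.succ_le_succ (Finset.sup_mono this)
    have hHh : ∀ k, h k + 1 ≤ H k := fun k =>
      Nat.succ_le_succ (Finset.le_sup (f := h) (Finset.self_mem_range_succ k))
    have hmem : (⟨H, hHm⟩ : α) ∈ M := by
      apply hins
      intro f hf
      right
      exact (hcon f.1 ⟨f, hf, rfl⟩).trans (EvLe.of_le fun k => (Nat.le_succ _).trans (hHh k))
    obtain ⟨N, hN⟩ := hcon H ⟨_, hmem, rfl⟩
    have h1 := hN N le_rfl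
    have h2 := hHh N
    omega
  · rintro _ ⟨f, hf, rfl⟩ g hg h1 h2
    refine ⟨⟨g, hg⟩, ?_, rfl⟩
    apply hins
    intro f' hf'
    rcases htot f hf f' hf' with h | h
    · exact Or.inl (h2.trans h)
    · exact Or.inr (EvLe.trans h h1)

/-- `S ∩ C` is not `≤*`-bounded. -/
def Big (C S : Set Fn) : Prop := ¬ ∃ h : Fn, ∀ f ∈ C, f ∈ S → EvLe f h

theorem Big.mono {C S T : Set Fn} (hS : Big C S) (h : ∀ f ∈ C, f ∈ S → f ∈ T) : Big C T := by
  rintro ⟨g, hg⟩
  exact hS ⟨g, fun f hf hfS => hg f hf (h f hf hfS)⟩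

theorem not_big_mono {C S T : Set Fn} (hT : ¬ Big C T) (h : ∀ f ∈ C, f ∈ S → f ∈ T) :
    ¬ Big C S := fun hS => hT (hS.mono h)

theorem Big.nonempty {C S : Set Fn} (hS : Big C S) : ∃ f ∈ C, f ∈ S := by
  by_contra h
  push Not at h
  exact hS ⟨fun _ => 0, fun f hf hfS => absurd hfS (h f hf)⟩

theorem big_univ {C : Set Fn} (hC : IsGood C) : Big C Set.univ := by
  rintro ⟨h, hh⟩
  obtain ⟨f, hf, hf'⟩ := hC.unbdd h
  exact hf' (hh f hf trivial)

/-- Countably many functions are bounded. -/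
theorem exists_bound {ι : Type*} [Countable ι] (g : ι → Fn) : ∃ h : Fn, ∀ i, EvLe (g i) h := by
  classical
  rcases isEmpty_or_nonempty ι with hι | hι
  · exact ⟨fun _ => 0, fun i => (hι.false i).elim⟩
  obtain ⟨e, he⟩ := exists_surjective_nat ι
  refine ⟨fun k => (Finset.range (k + 1)).sup fun i => g (e i) k, fun i => ?_⟩
  obtain ⟨n, rfl⟩ := he i
  refine ⟨n, fun k hk => ?_⟩
  exact Finset.le_sup (f := fun i => g (e i) k) (Finset.mem_range.mpr (by omega))

/-- Countable unions of bounded sets are bounded. -/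
theorem not_big_iUnion {C : Set Fn} {ι : Type*} [Countable ι] (S : ι → Set Fn)
    (h : ∀ i, ¬ Big C (S i)) : ¬ Big C (⋃ i, S i) := by
  have h' : ∀ i, ∃ g : Fn, ∀ f ∈ C, f ∈ S i → EvLe f g := fun i => by
    have := h i
    unfold Big at this
    push Not at this
    exact this
  choose g hg using h'
  obtain ⟨b, hb⟩ := exists_bound g
  intro hbig
  apply hbig
  refine ⟨b, fun f hf hfS => ?_⟩
  obtain ⟨i, hi⟩ := Set.mem_iUnion.mp hfS
  exact (hg i f hf hi).trans (hb i)

theorem not_big_union {C S T : Set Fn} (hS : ¬ Big C S) (hT : ¬ Big C T) : ¬ Big C (S ∪ T) := by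
  have := not_big_iUnion (C := C) (fun b : Bool => if b then S else T) (by
    intro b; cases b <;> simpa)
  refine not_big_mono this ?_
  rintro f - (h | h)
  · exact Set.mem_iUnion.mpr ⟨true, by simpa using h⟩
  · exact Set.mem_iUnion.mpr ⟨false, by simpa using h⟩

theorem Big.diff {C S T : Set Fn} (hS : Big C S) (hT : ¬ Big C T) : Big C (S \ T) := by
  by_contra h
  refine not_big_union h hT (hS.mono fun f _ hf => ?_)
  by_cases hfT : f ∈ T
  · exact Or.inr hfT
  · exact Or.inl ⟨hf, hfT⟩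

/-- The elements of `C` not eventually above `ψ ∈ C` form a bounded set. -/
theorem not_big_lt {C : Set Fn} (hC : IsGood C) {ψ : Fn} (hψ : ψ ∈ C) :
    ¬ Big C {f | ¬ EvLe ψ f} := by
  intro h
  apply h
  refine ⟨ψ, fun f hf hfψ => ?_⟩
  rcases hC.total f hf ψ hψ with h | h
  · exact h
  · exact absurd h hfψ

/-- Countable directedness of `C` for `≤*`. -/
theorem exists_dom {C : Set Fn} (hC : IsGood C) {ι : Type*} [Countable ι] (g : ι → Fn)
    (hg : ∀ i, g i ∈ C) : ∃ ψ ∈ C, ∀ i, EvLe (g i) ψ := by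
  obtain ⟨b, hb⟩ := exists_bound g
  obtain ⟨ψ, hψ, hψb⟩ := hC.unbdd b
  refine ⟨ψ, hψ, fun i => ?_⟩
  rcases hC.total (g i) (hg i) ψ hψ with h | h
  · exact h
  · exact absurd (h.trans (hb i)) hψb

theorem max_mem {C : Set Fn} (hC : IsGood C) {f g : Fn} (hf : f ∈ C) (hg : g ∈ C) :
    (fun k => max (f k) (g k)) ∈ C := by
  have hm : Monotone fun k => max (f k) (g k) := fun a b hab =>
    max_le_max (hC.mono f hf hab) (hC.mono g hg hab)
  rcases hC.total f hf g hg with h | h
  · refine hC.closed g hg _ hm (EvLe.of_le fun k => le_max_right _ _) ?_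
    obtain ⟨N, hN⟩ := h
    exact ⟨N, fun k hk => max_le (hN k hk) le_rfl⟩
  · refine hC.closed f hf _ hm (EvLe.of_le fun k => le_max_left _ _) ?_
    obtain ⟨N, hN⟩ := h
    exact ⟨N, fun k hk => max_le le_rfl (hN k hk)⟩

/-- There are elements of `C` with a prescribed lower bound. -/
theorem exists_large {C : Set Fn} (hC : IsGood C) (L : ℕ) : ∃ ψ ∈ C, ∀ k, L ≤ ψ k := by
  obtain ⟨f, hf, hfL⟩ := hC.unbdd fun _ => L
  refine ⟨fun k => max (f k) L, ?_, fun k => le_max_right _ _⟩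
  refine hC.closed f hf _ (fun a b hab => max_le_max (hC.mono f hf hab) le_rfl)
    (EvLe.of_le fun k => le_max_left _ _) ?_
  unfold EvLe at hfL
  push Not at hfL
  obtain ⟨N, -, hN⟩ := hfL 0
  exact ⟨N, fun k hk => max_le le_rfl (hN.le.trans (hC.mono f hf hk))⟩

/-- The elements of `C` everywhere above `a ∈ C` are unbounded. -/
theorem big_ge {C : Set Fn} (hC : IsGood C) {a : Fn} (ha : a ∈ C) :
    Big C {f | ∀ k, a k ≤ f k} := by
  rintro ⟨h, hh⟩
  obtain ⟨f, hf, hfh⟩ := hC.unbdd h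
  apply hfh
  refine (EvLe.of_le fun k => le_max_left (f k) (a k)).trans
    (hh (fun k => max (f k) (a k)) (max_mem hC hf ha) fun k => le_max_right _ _)

/-- **Bounded subsequences.** A pointwise convergent sequence in `C` has infinitely many terms
below a single element of `C`. -/
theorem exists_bounded_subseq {C : Set Fn} (hC : IsGood C) (g : ℕ → Fn) (hg : ∀ j, g j ∈ C)
    {fs : Fn} (hfs : fs ∈ C) (hconv : ∀ M, ∃ J, ∀ j, J ≤ j → ∀ k, k < M → g j k = fs k) :
    ∃ σ : ℕ → ℕ, StrictMono σ ∧ ∃ ψ ∈ C, ∀ j k, g (σ j) k ≤ ψ k := by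
  obtain ⟨f, hf, hfg⟩ := exists_dom hC g hg
  choose n hn using hfg
  -- for each `M` an index `≥ M` with agreement up to `M`
  have : ∀ M, ∃ j, M ≤ j ∧ ∀ k, k < M → g j k = fs k := by
    intro M
    obtain ⟨J, hJ⟩ := hconv M
    exact ⟨max J M, le_max_right _ _, hJ _ (le_max_left _ _)⟩
  choose j hj hj' using this
  obtain ⟨e, he, heh⟩ := hC.unbdd fun k => g (j k) (n (j k))
  refine ?_
  let ψ : Fn := fun k => max (fs k) (max (e k) (f k))
  have hψ : ψ ∈ C := max_mem hC hfs (max_mem hC he hf)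
  have key : ∀ N, ∃ i, N < i ∧ ∀ k, g i k ≤ ψ k := by
    intro N
    unfold EvLe at heh
    push Not at heh
    obtain ⟨k, hk, hk'⟩ := heh (N + 1)
    refine ⟨j k, lt_of_lt_of_le (Nat.lt_of_succ_le hk) (hj k), fun m => ?_⟩
    rcases lt_or_ge m k with h1 | h1
    · rw [hj' k m h1]; exact le_max_left _ _
    · rcases le_or_gt m (n (j k)) with h2 | h2
      · calc g (j k) m ≤ g (j k) (n (j k)) := hC.mono _ (hg _) h2
          _ ≤ e k := hk'.le
          _ ≤ e m := hC.mono e he h1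
          _ ≤ ψ m := le_trans (le_max_left _ _) (le_max_right _ _)
      · exact (hn (j k) m h2.le).trans (le_trans (le_max_right _ _) (le_max_right _ _))
  obtain ⟨σ, hσ, hσ'⟩ := Nat.exists_strictMono_subsequence key
  exact ⟨σ, hσ, ψ, hψ, hσ'⟩

end Pool.Agent.Helper63_Linf
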