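import Mathlib
import Pool.Agent.Helper63_Linf.Chain

set_option autoImplicit false

/-!
# Fine nodes of unbounded sets
-/

namespace Pool.Agent.Helper63_Linf

/-- Initial segment of length `m`. -/
def ini (f : Fn) (m : ℕ) : List ℕ := (List.range m).map f

@[simp] theorem ini_length (f : Fn) (m : ℕ) : (ini f m).length = m := by simp [ini]

theorem ini_eq_iff {f g : Fn} {m : ℕ} : ini f m = ini g m ↔ ∀ k, k < m → f k = g k := by
  unfold ini
  rw [List.map_inj_left]
  simp only [List.mem_range]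

theorem ini_eq_of_le {f g : Fn} {m n : ℕ} (h : ini f n = ini g n) (hmn : m ≤ n) :
    ini f m = ini g m := by
  rw [ini_eq_iff] at h ⊢
  exact fun k hk => h k (lt_of_lt_of_le hk hmn)

theorem ini_succ (f : Fn) (m : ℕ) : ini f (m + 1) = ini f m ++ [f m] := by
  simp [ini, List.range_succ]

/-- The node `q` is fine for `S`: for every `ψ ∈ C` unboundedly many elements of `S` extend `q`
and are above `ψ` from `|q|` on. -/
def Fine (C : Set Fn) (q : List ℕ) (S : Set Fn) : Prop :=
  ∀ ψ ∈ C, Big C {f | f ∈ S ∧ ini f q.length = q ∧ ∀ k, q.length ≤ k → ψ k ≤ f k}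

theorem Fine.mono {C : Set Fn} {q : List ℕ} {S T : Set Fn} (h : Fine C q S)
    (hST : ∀ f ∈ C, f ∈ S → f ∈ T) : Fine C q T := fun ψ hψ =>
  (h ψ hψ).mono fun f hf ⟨h1, h2⟩ => ⟨hST f hf h1, h2⟩

theorem Fine.big {C : Set Fn} (hC : IsGood C) {q : List ℕ} {S : Set Fn} (h : Fine C q S) :
    Big C S := by
  obtain ⟨ψ, hψ, -⟩ := exists_large hC 0
  exact (h ψ hψ).mono fun f _ hf => hf.1

/-- The possible initial segments of functions `g` extending `q₀` with `g n < H (g | n)`. -/
def segs (H : List ℕ → ℕ) (q₀ : List ℕ) : ℕ → Finset (List ℕ)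
  | 0 => {q₀}
  | j + 1 => (segs H q₀ j).biUnion fun q => (Finset.range (H q)).image fun a => q ++ [a]

theorem ini_mem_segs {H : List ℕ → ℕ} {q₀ : List ℕ} {g : Fn} (h0 : ini g q₀.length = q₀)
    (h : ∀ n, q₀.length ≤ n → g n < H (ini g n)) (j : ℕ) :
    ini g (q₀.length + j) ∈ segs H q₀ j := by
  induction j with
  | zero => simp [segs, h0]
  | succ j ih =>
    rw [← add_assoc, ini_succ]
    unfold segs
    rw [Finset.mem_biUnion]
    refine ⟨_, ih, ?_⟩
    rw [Finset.mem_image]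
    exact ⟨g (q₀.length + j), Finset.mem_range.mpr (h _ (by omega)), rfl⟩

theorem segs_bound (H : List ℕ → ℕ) (q₀ : List ℕ) : ∃ b : Fn, ∀ g : Fn,
    ini g q₀.length = q₀ → (∀ n, q₀.length ≤ n → g n < H (ini g n)) → EvLe g b := by
  refine ⟨fun n => (segs H q₀ (n - q₀.length)).sup H, fun g h0 h => ⟨q₀.length, fun k hk => ?_⟩⟩
  have h1 := ini_mem_segs h0 h (k - q₀.length)
  rw [show q₀.length + (k - q₀.length) = k by omega] at h1
  exact (h k hk).le.trans (Finset.le_sup (f := H) h1)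

/-- **Fine nodes exist.** -/
theorem exists_fine {C : Set Fn} (hC : IsGood C) {S : Set Fn} (hS : Big C S) :
    ∃ q, Fine C q S := by
  by_contra hcon
  push Not at hcon
  unfold Fine at hcon
  push Not at hcon
  choose ψ hψ hψb using hcon
  obtain ⟨Ψ, hΨ, hdom⟩ := exists_dom hC ψ hψ
  -- `n q ≥ |q|` with `ψ q ≤ Ψ` from `n q` on
  have : ∀ q : List ℕ, ∃ n, q.length ≤ n ∧ ∀ k, n ≤ k → ψ q k ≤ Ψ k := fun q => by
    obtain ⟨N, hN⟩ := hdom q
    exact ⟨max N q.length, le_max_right _ _, fun k hk => hN k (le_trans (le_max_left _ _) hk)⟩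
  choose n hn hn' using this
  let H : List ℕ → ℕ := fun q => ψ q (n q)
  have hsm := not_big_union (not_big_iUnion _ hψb) (not_big_lt hC hΨ)
  have hbig := hS.diff hsm
  choose b hb using segs_bound H
  obtain ⟨B, hB⟩ := exists_bound b
  apply hbig
  refine ⟨B, fun g hg hgS => ?_⟩
  obtain ⟨hgS, hgn⟩ := hgS
  rw [Set.mem_union, not_or, Set.mem_iUnion] at hgn
  obtain ⟨hg1, hg2⟩ := hgn
  simp only [Set.mem_ofPred_eq, not_not] at hg2
  obtain ⟨N, hN⟩ := hg2
  refine (hb (ini g N) g (by simp) fun m hm => ?_).trans (hB _)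
  rw [ini_length] at hm
  -- `g` is not above `ψ (g | m)` from `m` on
  have h1 : ¬ ∀ k, m ≤ k → ψ (ini g m) k ≤ g k := by
    intro hall
    apply hg1
    refine ⟨ini g m, hgS, by simp, ?_⟩
    rw [ini_length]
    exact hall
  push Not at h1
  obtain ⟨k, hk, hk'⟩ := h1
  have h2 : k < n (ini g m) := by
    by_contra h3
    push Not at h3
    have h4 := hn' (ini g m) k h3
    have h5 := hN k (hm.trans hk)
    omega
  calc g m ≤ g k := hC.mono g hg hk
    _ < ψ (ini g m) k := hk'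
    _ ≤ ψ (ini g m) (n (ini g m)) := hC.mono _ (hψ _) h2.le

/-- A fine node of a set of extensions of `p` has length at least `|p|`. -/
theorem Fine.length_le {C : Set Fn} (hC : IsGood C) {p q : List ℕ} {S : Set Fn}
    (h : Fine C q S) (hS : ∀ f ∈ C, f ∈ S → ini f p.length = p) : p.length ≤ q.length := by
  by_contra hlt
  push Not at hlt
  obtain ⟨ψ, hψ, hψL⟩ := exists_large hC (p.getD q.length 0 + 1)
  obtain ⟨f, hf, hfS, -, hfψ⟩ := (h ψ hψ).nonempty
  have h1 := hS f hf hfS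
  have h2 : f q.length = p.getD q.length 0 := by
    conv_rhs => rw [← h1]
    simp [ini, hlt]
  have h3 := hfψ q.length le_rfl
  have h4 := hψL q.length
  omega

/-- Elements all of whose long initial segments fail to be fine are rare. -/
theorem not_big_bad {C : Set Fn} (hC : IsGood C) (U : Set Fn) (M : ℕ) :
    ¬ Big C {f | f ∈ U ∧ ∀ m, M ≤ m → ¬ Fine C (ini f m) U} := by
  -- split according to the initial segment of length `M`
  have : ∀ p : List ℕ, ¬ Big C {f | (f ∈ U ∧ ∀ m, p.length ≤ m → ¬ Fine C (ini f m) U) ∧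
      ini f p.length = p} := by
    intro p hbig
    obtain ⟨q, hq⟩ := exists_fine hC hbig
    have hlen := hq.length_le hC (p := p) fun f _ hf => hf.2
    obtain ⟨ψ, hψ, -⟩ := exists_large hC 0
    obtain ⟨f, hf, ⟨⟨hfU, hfb⟩, hfp⟩, hfq, -⟩ := (hq ψ hψ).nonempty
    apply hfb q.length hlen
    rw [hfq]
    exact hq.mono fun g _ hg => hg.1.1
  have h2 := not_big_iUnion (C := C) (fun p : List ℕ =>
    {f | (f ∈ U ∧ ∀ m, p.length ≤ m → ¬ Fine C (ini f m) U) ∧ ini f p.length = p}) this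
  refine not_big_mono h2 ?_
  rintro f - ⟨h3, h4⟩
  rw [Set.mem_iUnion]
  exact ⟨ini f M, ⟨h3, by rw [ini_length]; exact h4⟩, by rw [ini_length]⟩

end Pool.Agent.Helper63_Linf
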