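import Mathlib
import Pool.Agent.Helper63_Linf.Fine

set_option autoImplicit false

/-!
# Positive trees, their types, and the interlacing lemma
-/

namespace Pool.Agent.Helper63_Linf

/-- The section of a set of finite sequences at the first entry `f`. -/
def der (P : Set (List Fn)) (f : Fn) : Set (List Fn) := {l | f :: l ∈ P}

/-- `P` contains a tree of height `h` all of whose splittings are unbounded. -/
def PosT (C : Set Fn) : ℕ → Set (List Fn) → Prop
  | 0, P => [] ∈ P
  | h + 1, P => Big C {f | PosT C h (der P f)}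

theorem PosT.mono {C : Set Fn} {h : ℕ} : ∀ {P Q : Set (List Fn)}, PosT C h P →
    (∀ l, l ∈ P → l ∈ Q) → PosT C h Q := by
  induction h with
  | zero => intro P Q hP hPQ; exact hPQ _ hP
  | succ h ih =>
    intro P Q hP hPQ
    unfold PosT at hP ⊢
    exact hP.mono fun f _ hf => ih hf fun l hl => hPQ _ hl

theorem PosT.exists_mem {C : Set Fn} {h : ℕ} : ∀ {P : Set (List Fn)}, PosT C h P →
    ∃ l ∈ P, l.length = h := by
  induction h with
  | zero => intro P hP; exact ⟨[], hP, rfl⟩
  | succ h ih =>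
    intro P hP
    obtain ⟨f, -, hf⟩ := Big.nonempty hP
    obtain ⟨l, hl, hlen⟩ := ih hf
    exact ⟨f :: l, hl, by simp [hlen]⟩

/-- Conditions on trees of height `h`. -/
def Cond : ℕ → Type
  | 0 => Unit
  | h + 1 => List (List ℕ × Cond h)

instance instCountableCond : ∀ h, Countable (Cond h)
  | 0 => (inferInstance : Countable Unit)
  | h + 1 => by
    have := instCountableCond h
    exact (inferInstance : Countable (List (List ℕ × Cond h)))

/-- The list underlying a condition of positive height. -/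
def Cond.toList {h : ℕ} (u : Cond (h + 1)) : List (List ℕ × Cond h) := u

/-- The trivial condition. -/
def Cond.top : ∀ h, Cond h
  | 0 => ()
  | _ + 1 => ([] : List _)

/-- Conjunction of conditions. -/
def Cond.and : ∀ h, Cond h → Cond h → Cond h
  | 0, _, _ => ()
  | _ + 1, u, v => List.append u v

/-- The one-point condition. -/
def Cond.single (h : ℕ) (q : List ℕ) (u : Cond h) : Cond (h + 1) := [(q, u)]

/-- Satisfaction of a condition by a tree. -/
def Sat (C : Set Fn) : ∀ h, Set (List Fn) → Cond h → Prop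
  | 0, P, _ => [] ∈ P
  | h + 1, P, u => PosT C (h + 1) P ∧
      ∀ x ∈ Cond.toList u, Fine C x.1 {f | Sat C h (der P f) x.2}

theorem Sat.pos {C : Set Fn} {h : ℕ} {P : Set (List Fn)} {u : Cond h} (hs : Sat C h P u) :
    PosT C h P := by
  cases h with
  | zero => exact hs
  | succ h => exact hs.1

theorem sat_top {C : Set Fn} {h : ℕ} {P : Set (List Fn)} (hP : PosT C h P) :
    Sat C h P (Cond.top h) := by
  cases h with
  | zero => exact hP
  | succ h => exact ⟨hP, fun x hx => absurd hx List.not_mem_nil⟩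

theorem sat_and {C : Set Fn} {h : ℕ} {P : Set (List Fn)} {u v : Cond h} :
    Sat C h P (Cond.and h u v) ↔ Sat C h P u ∧ Sat C h P v := by
  cases h with
  | zero => exact ⟨fun h => ⟨h, h⟩, fun h => h.1⟩
  | succ h =>
    constructor
    · rintro ⟨h1, h2⟩
      exact ⟨⟨h1, fun x hx => h2 x (List.mem_append.mpr (Or.inl hx))⟩,
        ⟨h1, fun x hx => h2 x (List.mem_append.mpr (Or.inr hx))⟩⟩
    · rintro ⟨⟨h1, h2⟩, ⟨-, h3⟩⟩
      refine ⟨h1, fun x hx => ?_⟩
      rcases List.mem_append.mp hx with h | h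
      · exact h2 x h
      · exact h3 x h

theorem sat_single {C : Set Fn} {h : ℕ} {P : Set (List Fn)} {q : List ℕ} {u : Cond h} :
    Sat C (h + 1) P (Cond.single h q u) ↔
      PosT C (h + 1) P ∧ Fine C q {f | Sat C h (der P f) u} := by
  constructor
  · rintro ⟨h1, h2⟩
    exact ⟨h1, h2 (q, u) (List.mem_singleton.mpr rfl)⟩
  · rintro ⟨h1, h2⟩
    refine ⟨h1, fun x hx => ?_⟩
    rw [show x = (q, u) from List.mem_singleton.mp hx]
    exact h2

/-- A sequence of conditions, each satisfied by `P` and together implying every condition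
satisfied by `P`. -/
theorem exists_cofinal_conds {C : Set Fn} {h : ℕ} {P : Set (List Fn)} (hP : PosT C h P) :
    ∃ u : ℕ → Cond h, (∀ i, Sat C h P (u i)) ∧
      ∀ v, Sat C h P v → ∃ i₀, ∀ i, i₀ ≤ i → ∀ Q, Sat C h Q (u i) → Sat C h Q v := by
  classical
  have : Nonempty (Cond h) := ⟨Cond.top h⟩
  obtain ⟨e, he⟩ := exists_surjective_nat (Cond h)
  let u : ℕ → Cond h := fun i => Nat.rec (Cond.top h)
    (fun i w => if Sat C h P (e i) then Cond.and h w (e i) else w) i
  have hu : ∀ i, u (i + 1) = if Sat C h P (e i) then Cond.and h (u i) (e i) else u i :=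
    fun _ => rfl
  refine ⟨u, fun i => ?_, fun v hv => ?_⟩
  · induction i with
    | zero => exact sat_top hP
    | succ i ih =>
      rw [hu]
      split_ifs with hc
      · exact sat_and.mpr ⟨ih, hc⟩
      · exact ih
  · obtain ⟨r, rfl⟩ := he v
    refine ⟨r + 1, fun i hi => ?_⟩
    induction i, hi using Nat.le_induction with
    | base =>
      intro Q hQ
      rw [hu, if_pos hv] at hQ
      exact (sat_and.mp hQ).2
    | succ i hi ih =>
      intro Q hQ
      apply ih
      rw [hu] at hQ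
      split_ifs at hQ with hc
      · exact (sat_and.mp hQ).1
      · exact hQ

/-- `a ≤ l₀ ≤ l₁ ≤ …` everywhere. -/
def Ch : Fn → List Fn → Prop
  | _, [] => True
  | a, f :: l => (∀ k, a k ≤ f k) ∧ Ch f l

/-- `(a :: l)ᵢ ≤ l'ᵢ` for all `i`, the two lists `l, l'` having the same length. -/
def Bel : Fn → List Fn → List Fn → Prop
  | _, [], [] => True
  | a, c :: l, b :: l' => (∀ k, a k ≤ b k) ∧ Bel c l l'
  | _, [], _ :: _ => False
  | _, _ :: _, [] => False

/-- Extraction of a subsequence with eventual properties. -/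
theorem extract {p : ℕ → ℕ → Prop} (h : ∀ n, ∃ N, ∀ k, N ≤ k → p n k) :
    ∃ φ : ℕ → ℕ, StrictMono φ ∧ ∀ n, p n (φ n) :=
  Filter.extraction_forall_of_eventually' (by simpa using h)

/-- **The interlacing lemma.** If the trees `P j` converge in type to the positive tree `Ps`,
whose branches start above `as`, and the `a j ≤ ψ ∈ C` converge pointwise to `as`, then
infinitely many `P j` contain branches which are pairwise interlaced, together with `a j`. -/
theorem interlacing {C : Set Fn} (hC : IsGood C) : ∀ (h : ℕ) (P : ℕ → Set (List Fn))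
    (Ps : Set (List Fn)), PosT C h Ps →
    (∀ u : Cond h, Sat C h Ps u → ∃ N, ∀ j, N ≤ j → Sat C h (P j) u) →
    ∀ (a : ℕ → Fn) (as ψ : Fn), ψ ∈ C → (∀ j k, a j k ≤ ψ k) →
    (∀ M, ∃ J, ∀ j, J ≤ j → ∀ k, k < M → a j k = as k) →
    (∀ l ∈ Ps, Ch as l) →
    ∃ σ : ℕ → ℕ, StrictMono σ ∧ ∃ t : ℕ → List Fn, (∀ j, t j ∈ P (σ j)) ∧
      ∀ i j, Bel (a (σ i)) (t i) (t j) := by
  intro h
  induction h with
  | zero =>
    intro P Ps hpos hconv a as ψ hψ haψ hlim hch
    obtain ⟨N, hN⟩ := hconv (Cond.top 0) (sat_top hpos)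
    refine ⟨fun j => N + j, fun i j hij => by simpa using hij, fun _ => [], fun j => ?_,
      fun i j => trivial⟩
    exact hN (N + j) (Nat.le_add_right _ _)
  | succ h ih =>
    intro P Ps hpos hconv a as ψ hψ haψ hlim hch
    have hS : Big C {f | PosT C h (der Ps f)} := hpos
    obtain ⟨q, hq⟩ := exists_fine hC hS
    have hS' := hq ψ hψ
    -- remove the non-generic elements
    have hbad : ¬ Big C (⋃ x : Cond h × ℕ, {f | f ∈ {f | Sat C h (der Ps f) x.1} ∧
        ∀ m, x.2 ≤ m → ¬ Fine C (ini f m) {f | Sat C h (der Ps f) x.1}}) :=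
      not_big_iUnion _ fun x => not_big_bad hC _ _
    obtain ⟨fs, hfsC, ⟨hfs1, hfs2, hfs3⟩, hfs4⟩ := (hS'.diff hbad).nonempty
    have hfs1' : PosT C h (der Ps fs) := hfs1
    have hgen : ∀ (u : Cond h), Sat C h (der Ps fs) u → ∀ M, ∃ m, M ≤ m ∧
        Fine C (ini fs m) {f | Sat C h (der Ps f) u} := by
      intro u hu M
      by_contra hcon
      push Not at hcon
      apply hfs4
      rw [Set.mem_iUnion]
      exact ⟨(u, M), hu, hcon⟩
    have hasfs : ∀ k, as k ≤ fs k := by
      obtain ⟨l, hl, -⟩ := hfs1'.exists_mem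
      exact (hch _ hl).1
    obtain ⟨u, hu, hucof⟩ := exists_cofinal_conds hfs1'
    have : ∀ i, ∃ m, max i q.length ≤ m ∧ Fine C (ini fs m) {f | Sat C h (der Ps f) (u i)} :=
      fun i => hgen (u i) (hu i) _
    choose m hm hm' using this
    obtain ⟨J₀, hJ₀⟩ := hlim q.length
    obtain ⟨σ₀, hσ₀, hσ₀'⟩ := extract (p := fun i j =>
        Sat C (h + 1) (P j) (Cond.single h (ini fs (m i)) (u i)) ∧
        ∀ k, k < q.length → a j k = as k) (by
      intro i
      obtain ⟨N, hN⟩ := hconv (Cond.single h (ini fs (m i)) (u i))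
        (sat_single.mpr ⟨hpos, hm' i⟩)
      exact ⟨max N J₀, fun j hj => ⟨hN j (le_trans (le_max_left _ _) hj),
        hJ₀ j (le_trans (le_max_right _ _) hj)⟩⟩)
    have : ∀ i, ∃ g ∈ C, Sat C h (der (P (σ₀ i)) g) (u i) ∧ ini g (m i) = ini fs (m i) ∧
        ∀ k, m i ≤ k → ψ k ≤ g k := by
      intro i
      obtain ⟨-, h2⟩ := sat_single.mp (hσ₀' i).1
      obtain ⟨g, hg, hg1, hg2, hg3⟩ := (h2 ψ hψ).nonempty
      rw [ini_length] at hg2 hg3
      exact ⟨g, hg, hg1, hg2, hg3⟩
    choose g hg hg1 hg2 hg3 using this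
    have hglim : ∀ M, ∃ J, ∀ j, J ≤ j → ∀ k, k < M → g j k = fs k := by
      intro M
      refine ⟨M, fun j hj k hk => ini_eq_iff.mp (hg2 j) k ?_⟩
      have := (le_max_left j q.length).trans (hm j)
      omega
    obtain ⟨τ, hτ, ψ₁, hψ₁, hgψ₁⟩ := exists_bounded_subseq hC g hg hfsC hglim
    obtain ⟨ρ, hρ, t', ht', hbel⟩ := ih (fun i => der (P (σ₀ (τ i))) (g (τ i))) (der Ps fs) hfs1'
      (by
        intro v hv
        obtain ⟨i₀, hi₀⟩ := hucof v hv
        exact ⟨i₀, fun j hj => hi₀ _ (hj.trans (hτ.id_le j)) _ (hg1 (τ j))⟩)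
      (fun i => g (τ i)) fs ψ₁ hψ₁ hgψ₁
      (by
        intro M
        obtain ⟨J, hJ⟩ := hglim M
        exact ⟨J, fun j hj => hJ _ (hj.trans (hτ.id_le j))⟩)
      (fun l hl => (hch _ hl).2)
    refine ⟨fun j => σ₀ (τ (ρ j)), fun i j hij => hσ₀ (hτ (hρ hij)),
      fun j => g (τ (ρ j)) :: t' j, fun j => ht' j, fun i j => ⟨fun k => ?_, hbel i j⟩⟩
    -- the key comparison
    rcases lt_or_ge k q.length with h1 | h1
    · have h2 : g (τ (ρ j)) k = fs k := ini_eq_iff.mp (hg2 (τ (ρ j))) k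
        (lt_of_lt_of_le h1 ((le_max_right _ _).trans (hm _)))
      show a (σ₀ (τ (ρ i))) k ≤ g (τ (ρ j)) k
      rw [(hσ₀' (τ (ρ i))).2 k h1, h2]
      exact hasfs k
    · rcases lt_or_ge k (m (τ (ρ j))) with h3 | h3
      · have h2 : g (τ (ρ j)) k = fs k := ini_eq_iff.mp (hg2 (τ (ρ j))) k h3
        show a (σ₀ (τ (ρ i))) k ≤ g (τ (ρ j)) k
        rw [h2]
        exact (haψ _ k).trans (hfs3 k h1)
      · exact (haψ _ k).trans (hg3 _ k h3)

end Pool.Agent.Helper63_Linf
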