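import Mathlib
import Pool.Agent.Helper63_Linf.Tree

set_option autoImplicit false

/-!
# Monochromatic positive trees
-/

namespace Pool.Agent.Helper63_Linf

/-- If the fibres of `κ` on the first level of a positive tree `P` are bounded, there are
infinitely many pairwise interlaced branches of `P` with pairwise distinct values of `κ`. -/
theorem interlacing_start {C : Set Fn} (hC : IsGood C) {K : Type*} (h : ℕ) (P : Set (List Fn))
    (κ : Fn → K) (hP : PosT C (h + 1) P) (hκ : ∀ c, ¬ Big C {f | PosT C h (der P f) ∧ κ f = c})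
    (b : Fn) (hch : ∀ l ∈ P, Ch b l) :
    ∃ (g : ℕ → Fn) (t : ℕ → List Fn), (∀ j, g j :: t j ∈ P) ∧
      (∀ i j, Bel (g i) (t i) (t j)) ∧ ∀ i j, i ≠ j → κ (g i) ≠ κ (g j) := by
  classical
  have hS : Big C {f | PosT C h (der P f)} := hP
  -- a generic element
  have hbad : ¬ Big C (⋃ x : {x : Cond h × List ℕ //
      ¬ Big C {f | Sat C h (der P f) x.1 ∧ ini f x.2.length = x.2}},
      {f | Sat C h (der P f) x.1.1 ∧ ini f x.1.2.length = x.1.2}) :=
    not_big_iUnion _ fun x => x.2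
  obtain ⟨fs, hfsC, hfs1, hfs2⟩ := (hS.diff hbad).nonempty
  have hfs1' : PosT C h (der P fs) := hfs1
  have hgen : ∀ u : Cond h, Sat C h (der P fs) u → ∀ m,
      Big C {f | Sat C h (der P f) u ∧ ini f m = ini fs m} := by
    intro u hu m
    by_contra hcon
    apply hfs2
    rw [Set.mem_iUnion]
    refine ⟨⟨(u, ini fs m), ?_⟩, hu, ?_⟩
    · simpa using hcon
    · simp
  obtain ⟨u, hu, hucof⟩ := exists_cofinal_conds hfs1'
  obtain ⟨s, hs, hs'⟩ := exists_seq_of_forall_finset_exists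
    (fun x : ℕ × Fn => x.2 ∈ C ∧ Sat C h (der P x.2) (u x.1) ∧ ini x.2 x.1 = ini fs x.1)
    (fun x y => x.1 < y.1 ∧ κ x.2 ≠ κ y.2) (by
      intro T hT
      -- an index larger than those in `T`
      let n := T.sup Prod.fst + 1
      have hbig := hgen (u n) (hu n) n
      have hsm : ¬ Big C (⋃ x : {x // x ∈ T}, {f | PosT C h (der P f) ∧ κ f = κ x.1.2}) :=
        not_big_iUnion _ fun x => hκ _
      obtain ⟨f, hf, ⟨hf1, hf2⟩, hf3⟩ := (hbig.diff hsm).nonempty
      refine ⟨(n, f), ⟨hf, hf1, hf2⟩, fun x hx => ⟨?_, fun hxf => ?_⟩⟩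
      · exact Nat.lt_succ_of_le (Finset.le_sup (f := Prod.fst) hx)
      · apply hf3
        rw [Set.mem_iUnion]
        exact ⟨⟨x, hx⟩, Sat.pos hf1, hxf.symm⟩)
  have hmono : StrictMono fun j => (s j).1 := fun i j hij => (hs' i j hij).1
  have hlim : ∀ M, ∃ J, ∀ j, J ≤ j → ∀ k, k < M → (s j).2 k = fs k := by
    intro M
    refine ⟨M, fun j hj k hk => ini_eq_iff.mp (hs j).2.2 k ?_⟩
    exact lt_of_lt_of_le hk (hj.trans (hmono.id_le j))
  obtain ⟨τ, hτ, ψ, hψ, hψg⟩ := exists_bounded_subseq hC (fun j => (s j).2)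
    (fun j => (hs j).1) hfsC hlim
  obtain ⟨ρ, hρ, t, ht, hbel⟩ := interlacing hC h (fun i => der P (s (τ i)).2) (der P fs) hfs1'
    (by
      intro v hv
      obtain ⟨i₀, hi₀⟩ := hucof v hv
      exact ⟨i₀, fun j hj => hi₀ _ ((hj.trans (hτ.id_le j)).trans (hmono.id_le _)) _
        (hs (τ j)).2.1⟩)
    (fun i => (s (τ i)).2) fs ψ hψ hψg
    (by
      intro M
      obtain ⟨J, hJ⟩ := hlim M
      exact ⟨J, fun j hj => hJ _ (hj.trans (hτ.id_le j))⟩)
    (fun l hl => (hch _ hl).2)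
  refine ⟨fun j => (s (τ (ρ j))).2, t, fun j => ht j, hbel, fun i j hij => ?_⟩
  rcases lt_or_gt_of_ne hij with h1 | h1
  · exact (hs' _ _ (hτ (hρ h1))).2
  · exact ((hs' _ _ (hτ (hρ h1))).2).symm

/-- **Monochromatic positive trees exist** for colourings which take finitely many values on
each family of pairwise interlaced sequences. -/
theorem exists_color {C : Set Fn} (hC : IsGood C) {K : Type*} : ∀ (h : ℕ) (a : Fn), a ∈ C →
    ∀ χ : List Fn → K, (∀ t : ℕ → List Fn, (∀ i j, Bel a (t i) (t j)) →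
      (Set.range fun j => χ (t j)).Finite) →
    ∃ c, PosT C h {t | Ch a t ∧ χ t = c} := by
  classical
  intro h
  induction h with
  | zero =>
    intro a ha χ hχ
    exact ⟨χ [], trivial, rfl⟩
  | succ h ih =>
    intro a ha χ hχ
    have hstep : ∀ f : Fn, ∃ c, f ∈ C → (∀ k, a k ≤ f k) →
        PosT C h {t | Ch f t ∧ χ (f :: t) = c} := by
      intro f
      by_cases hf : f ∈ C ∧ ∀ k, a k ≤ f k
      · obtain ⟨c, hc⟩ := ih f hf.1 (fun t => χ (f :: t)) (by
          intro t ht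
          exact hχ (fun j => f :: t j) fun i j => ⟨hf.2, ht i j⟩)
        exact ⟨c, fun _ _ => hc⟩
      · exact ⟨χ [], fun h1 h2 => absurd ⟨h1, h2⟩ hf⟩
    choose κ hκ using hstep
    by_contra hcon
    push Not at hcon
    let P : Set (List Fn) := {t | ∃ f l, t = f :: l ∧ f ∈ C ∧ (∀ k, a k ≤ f k) ∧ Ch f l ∧
      χ (f :: l) = κ f}
    have hder : ∀ f, ∀ l, l ∈ der P f → f ∈ C ∧ (∀ k, a k ≤ f k) ∧ Ch f l ∧
        χ (f :: l) = κ f := by
      rintro f l ⟨f', l', h1, h2⟩
      rw [List.cons.injEq] at h1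
      obtain ⟨rfl, rfl⟩ := h1
      exact h2
    have hP : PosT C (h + 1) P := by
      refine (big_ge hC ha).mono fun f hf hfa => ?_
      refine (hκ f hf hfa).mono fun l hl => ?_
      exact ⟨f, l, rfl, hf, hfa, hl.1, hl.2⟩
    obtain ⟨g, t, hgt, hbel, hne⟩ := interlacing_start hC h P κ hP (by
      intro c hbig
      apply hcon c
      refine hbig.mono fun f hf hfP => ?_
      obtain ⟨hfP, rfl⟩ := hfP
      obtain ⟨l, hl, -⟩ := hfP.exists_mem
      obtain ⟨-, hfa, -, -⟩ := hder f l hl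
      exact (hκ f hf hfa).mono fun l hl => ⟨⟨hfa, hl.1⟩, hl.2⟩)
      a (by
      rintro _ ⟨f, l, rfl, -, hfa, hfl, -⟩
      exact ⟨hfa, hfl⟩)
    have hfin := hχ (fun j => g j :: t j) fun i j =>
      ⟨(hder _ _ (hgt j)).2.1, hbel i j⟩
    have heq : (fun j => χ (g j :: t j)) = fun j => κ (g j) := by
      funext j
      exact (hder _ _ (hgt j)).2.2.2
    rw [heq] at hfin
    have hinj : Function.Injective fun j => κ (g j) := by
      intro i j hij
      by_contra h1
      exact hne i j h1 hij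
    exact Set.infinite_range_of_injective hinj hfin

end Pool.Agent.Helper63_Linf
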